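import Pool.Agent.Y828.TK.Tab

/-!
# All level sets with a block tail are countable
-/

set_option autoImplicit false

namespace Pool.Agent.Y828.TK

open Set Pool.Agent.Results.MP_4a5b11_an.NonDyadicCountable

/-- The position at time `n` in the concatenation of the blocks `P` (for `false`) and `Q` (for `true`)
prescribed by `ω`. -/
def nd (ω : ℕ → Bool) (n : ℕ) : ℕ := (if ω (n / 24) then 24 else 0) + n % 24

/-- The digit at time `n`. -/
def dig (ω : ℕ → Bool) (n : ℕ) : ℕ := dg (nd ω n)

/-- The number in `[0,1]` with binary digits `dig ω n, dig ω (n+1), ...`. -/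
noncomputable def tl (ω : ℕ → Bool) (n : ℕ) : ℝ := ∑' k : ℕ, (dig ω (n + k) : ℝ) / 2 ^ (k + 1)

lemma nd_lt (ω : ℕ → Bool) (n : ℕ) : nd ω n < 48 := by
  unfold nd
  have := Nat.mod_lt n (show 24 > 0 by norm_num)
  split_ifs <;> omega

lemma nd_mod (ω : ℕ → Bool) (n : ℕ) : nd ω n % 24 = n % 24 := by
  unfold nd
  split_ifs <;> omega

lemma nd_succ (ω : ℕ → Bool) (n : ℕ) (h : n % 24 ≠ 23) : nd ω (n + 1) = nd ω n + 1 := by
  unfold nd
  have h1 : (n + 1) / 24 = n / 24 := by omega
  have h2 : (n + 1) % 24 = n % 24 + 1 := by omega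
  rw [h1, h2]
  split_ifs <;> omega

lemma nd_nx (ω : ℕ → Bool) (n : ℕ) : nd ω (n + 1) ∈ nx (nd ω n) := by
  unfold nx
  rw [nd_mod]
  split_ifs with h
  · unfold nd
    have h2 : (n + 1) % 24 = 0 := by omega
    rw [h2]
    split_ifs <;> simp
  · rw [nd_succ ω n h]
    simp

lemma dig_le (ω : ℕ → Bool) (n : ℕ) : dig ω n ≤ 1 := dg_le _ (nd_lt ω n)

lemma tl_summable (ω : ℕ → Bool) (n : ℕ) :
    Summable (fun k : ℕ => (dig ω (n + k) : ℝ) / 2 ^ (k + 1)) := by
  have hg : Summable (fun k : ℕ => (1 / 2 : ℝ) * (1 / 2) ^ k) :=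
    (summable_geometric_of_lt_one (by norm_num) (by norm_num)).mul_left _
  refine Summable.of_nonneg_of_le (fun k => by positivity) (fun k => ?_) hg
  have h1 : (dig ω (n + k) : ℝ) ≤ 1 := by exact_mod_cast dig_le ω (n + k)
  rw [pow_succ, one_div_pow]
  rw [div_le_iff₀ (by positivity)]
  have h2 : (0:ℝ) < 2 ^ k := by positivity
  field_simp
  linarith

lemma tl_rec (ω : ℕ → Bool) (n : ℕ) : 2 * tl ω n = dig ω n + tl ω (n + 1) := by
  unfold tl
  rw [(tl_summable ω n).tsum_eq_zero_add, mul_add, ← tsum_mul_left]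
  congr 1
  · simp only [add_zero, zero_add, pow_one]
    ring
  · congr 1
    funext k
    rw [show n + (k + 1) = n + 1 + k by ring, pow_succ]
    field_simp

lemma tl_nonneg (ω : ℕ → Bool) (n : ℕ) : 0 ≤ tl ω n := tsum_nonneg (fun k => by positivity)

lemma tl_le_one (ω : ℕ → Bool) (n : ℕ) : tl ω n ≤ 1 := by
  have hg : Summable (fun k : ℕ => (1 / 2 : ℝ) * (1 / 2) ^ k) :=
    (summable_geometric_of_lt_one (by norm_num) (by norm_num)).mul_left _
  have h : tl ω n ≤ ∑' k : ℕ, (1 / 2 : ℝ) * (1 / 2) ^ k := by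
    refine (tl_summable ω n).tsum_le_tsum (fun k => ?_) hg
    have h1 : (dig ω (n + k) : ℝ) ≤ 1 := by exact_mod_cast dig_le ω (n + k)
    rw [pow_succ, one_div_pow]
    rw [div_le_iff₀ (by positivity)]
    have h2 : (0:ℝ) < 2 ^ k := by positivity
    field_simp
    linarith
  rw [tsum_mul_left, tsum_geometric_of_lt_one (by norm_num) (by norm_num)] at h
  norm_num at h
  exact h

lemma tl_lower (ω : ℕ → Bool) : ∀ (f n : ℕ), ones f (nd ω n) = true → (1 / 2 : ℝ) ^ f ≤ tl ω n := by
  intro f
  induction f with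
  | zero => intro n h; simp [ones] at h
  | succ f ih =>
    intro n h
    unfold ones at h
    rw [Bool.or_eq_true] at h
    have hr := tl_rec ω n
    have h0 := tl_nonneg ω (n + 1)
    rcases h with h | h
    · have h1 : dig ω n = 1 := by
        unfold dig
        simpa using h
      rw [h1] at hr
      push_cast at hr
      have h2 : (1 / 2 : ℝ) ^ (f + 1) ≤ 1 / 2 := by
        rw [pow_succ]
        have : (1 / 2 : ℝ) ^ f ≤ 1 := pow_le_one₀ (by norm_num) (by norm_num)
        linarith
      linarith
    · rw [List.all_eq_true] at h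
      have h1 := ih (n + 1) (h _ (nd_nx ω n))
      have h2 : (0:ℝ) ≤ dig ω n := by positivity
      rw [pow_succ]
      linarith

lemma tl_upper (ω : ℕ → Bool) :
    ∀ (f n : ℕ), zeros f (nd ω n) = true → tl ω n ≤ 1 - (1 / 2 : ℝ) ^ f := by
  intro f
  induction f with
  | zero => intro n h; simp [zeros] at h
  | succ f ih =>
    intro n h
    unfold zeros at h
    rw [Bool.or_eq_true] at h
    have hr := tl_rec ω n
    have h0 := tl_le_one ω (n + 1)
    rcases h with h | h
    · have h1 : dig ω n = 0 := by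
        unfold dig
        simpa using h
      rw [h1] at hr
      push_cast at hr
      have h2 : (1 / 2 : ℝ) ^ (f + 1) ≤ 1 / 2 := by
        rw [pow_succ]
        have : (1 / 2 : ℝ) ^ f ≤ 1 := pow_le_one₀ (by norm_num) (by norm_num)
        linarith
      linarith
    · rw [List.all_eq_true] at h
      have h1 := ih (n + 1) (h _ (nd_nx ω n))
      have h2 : (dig ω n : ℝ) ≤ 1 := by exact_mod_cast dig_le ω n
      rw [pow_succ]
      linarith

lemma tl_ge (ω : ℕ → Bool) (n : ℕ) : 1 / 32 ≤ tl ω n := by
  have := tl_lower ω 5 n (all_ones _ (nd_lt ω n))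
  norm_num at this ⊢
  exact this

lemma tl_lt (ω : ℕ → Bool) (n : ℕ) : tl ω n ≤ 31 / 32 := by
  have := tl_upper ω 5 n (all_zeros _ (nd_lt ω n))
  norm_num at this ⊢
  exact this

/-! ### Emptiness -/

lemma N_empty_hi {j : ℕ} {y : ℝ} (h : (j : ℝ) + (2 / 3) / 2 ^ j < y) : N j y = ∅ := by
  rw [eq_empty_iff_forall_notMem]
  intro x hx
  have := N_le hx
  linarith

lemma N_empty_lo {j : ℕ} {y : ℝ} (h : y < 0) : N j y = ∅ := by
  rw [eq_empty_iff_forall_notMem]
  intro x hx
  have := N_nonneg hx
  linarith

lemma two_thirds_le (j : ℕ) : (2 / 3 : ℝ) / 2 ^ j ≤ 2 / 3 := by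
  apply div_le_self (by norm_num)
  exact one_le_pow₀ (by norm_num)

/-- `0`-branch: double the ordinate. -/
lemma dbl (ω : ℕ → Bool) (n c : ℕ) :
    2 * ((c : ℝ) + tl ω n) = ((2 * c + dig ω n : ℕ) : ℝ) + tl ω (n + 1) := by
  have := tl_rec ω n
  push_cast
  linarith

lemma branch0_empty (ω : ℕ → Bool) {n j d : ℕ} (h : j + 1 < d) :
    N (j + 1) ((d : ℝ) + tl ω n) = ∅ := by
  apply N_empty_hi
  have h1 : ((j + 1 + 1 : ℕ) : ℝ) ≤ d := by exact_mod_cast h
  have h2 := two_thirds_le (j + 1)
  have h3 := tl_ge ω n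
  push_cast at h1 ⊢
  linarith

lemma branch1_lo (ω : ℕ → Bool) {n j d : ℕ} (h : d < j + 2) :
    N j ((d : ℝ) + tl ω n - (j + 1 + 1)) = ∅ := by
  apply N_empty_lo
  have h1 : ((d + 1 : ℕ) : ℝ) ≤ ((j + 2 : ℕ) : ℝ) := by exact_mod_cast h
  have h3 := tl_lt ω n
  push_cast at h1 ⊢
  linarith

lemma branch1_hi (ω : ℕ → Bool) {n j d : ℕ} (h : 2 * j + 2 < d) :
    N j ((d : ℝ) + tl ω n - (j + 1 + 1)) = ∅ := by
  apply N_empty_hi
  have h1 : ((2 * j + 3 : ℕ) : ℝ) ≤ d := by exact_mod_cast h
  have h2 := two_thirds_le j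
  have h3 := tl_ge ω n
  push_cast at h1 ⊢
  linarith

lemma branch1_eq (ω : ℕ → Bool) {n j d : ℕ} (h : j + 2 ≤ d) :
    (d : ℝ) + tl ω n - (j + 1 + 1) = ((d - (j + 2) : ℕ) : ℝ) + tl ω n := by
  rw [Nat.cast_sub h]
  push_cast
  ring

lemma wt_cases {s r : ℕ} (h : wt s r ≤ 1) :
    (∃ r', r' < r ∧ s = r' + 1) ∨ (wt s r = 1 ∧ s = r + 1) := by
  unfold wt at h ⊢
  split_ifs at h with h1 h2 h3
  · omega
  · left
    exact ⟨s - 1, by omega, by omega⟩
  · right
    rw [if_neg h1, if_neg h2, if_pos h3]
    exact ⟨rfl, h3⟩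
  · omega

/-- The rank plus one is at most `16`. -/
lemma rk_le (l : List ℕ) (s : ℕ) : rk l s ≤ 16 := by
  induction l with
  | nil => simp [rk]
  | cons e t ih =>
    unfold rk
    split_ifs
    · omega
    · exact ih

/-- The states of the table have countable sets `N`. -/
lemma cnt_tab (ω : ℕ → Bool) : ∀ (r n j c : ℕ), c < 64 → rq (nd ω n) j c = r + 1 →
    (N j ((c : ℝ) + tl ω n)).Countable := by
  intro r
  induction r using Nat.strong_induction_on with
  | _ r ihr =>
  have key : ∀ (k n j c : ℕ), c < 64 → rq (nd ω n) j c = r + 1 → App k (N j ((c : ℝ) + tl ω n)) := by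
    intro k
    induction k with
    | zero =>
      intro n j c _ _
      refine ⟨∅, Icc 0 1, countable_empty, ?_, ?_⟩
      · rintro x ⟨hx0, hx1⟩ y ⟨hy0, hy1⟩
        rw [pow_zero, abs_le]
        constructor <;> linarith
      · intro x hx
        exact Or.inr hx.1
    | succ k ihk =>
      intro n j c hc hjc
      have hr : r < 16 := by
        have h2 := rk_le (tab (nd ω n)) (64 * j + c)
        unfold rq at hjc
        omega
      have hg := good_spec (nd_lt ω n) hc hjc hr (nd ω (n + 1)) (nd_nx ω n)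
      have hq' := nd_lt ω (n + 1)
      have hdd := dbl ω n c
      have hdig : dg (nd ω n) = dig ω n := rfl
      rw [hdig] at hg
      set d := 2 * c + dig ω n with hd
      have hd1 := dig_le ω n
      -- the `0`-branch in general
      have hb0 : ∀ i, e0 (nd ω (n + 1)) i d r ≤ 1 →
          (N (i + 1) ((d : ℝ) + tl ω (n + 1))).Countable ∨
            (e0 (nd ω (n + 1)) i d r = 1 ∧ App k (N (i + 1) ((d : ℝ) + tl ω (n + 1)))) := by
        intro i hi
        unfold e0 at hi ⊢
        split_ifs at hi ⊢ with hc1 hdlt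
        · rcases wt_cases hi with ⟨r', hr', hs⟩ | ⟨h1, hs⟩
          · left
            exact ihr r' hr' (n + 1) (i + 1) d hdlt hs
          · right
            exact ⟨h1, ihk (n + 1) (i + 1) d hdlt hs⟩
        · omega
        · left
          rw [branch0_empty ω (by omega)]
          exact countable_empty
      have hb1 : ∀ i, e1 (nd ω (n + 1)) i d r ≤ 1 →
          (N i ((d : ℝ) + tl ω (n + 1) - (i + 1 + 1))).Countable ∨
            (e1 (nd ω (n + 1)) i d r = 1 ∧ App k (N i ((d : ℝ) + tl ω (n + 1) - (i + 1 + 1)))) := by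
        intro i hi
        unfold e1 at hi ⊢
        split_ifs at hi ⊢ with hc1
        · rw [branch1_eq ω hc1.1]
          rcases wt_cases hi with ⟨r', hr', hs⟩ | ⟨h1, hs⟩
          · left
            exact ihr r' hr' (n + 1) i _ (by omega) hs
          · right
            exact ⟨h1, ihk (n + 1) i _ (by omega) hs⟩
        · left
          rcases Nat.lt_or_ge d (i + 2) with h | h
          · rw [branch1_lo ω h]
            exact countable_empty
          · rw [branch1_hi ω (by omega)]
            exact countable_empty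
      rcases j with _ | j
      · have h0 := hg.1 rfl
        have hcount : (N 1 (2 * ((c : ℝ) + tl ω n))).Countable := by
          rw [hdd]
          rcases hb0 0 (by omega) with h | ⟨h, _⟩
          · exact h
          · omega
        exact App.of_countable
          (((hcount.image p0).union ((hcount.image p0).image _)).mono (N_zero_subset _))
      · have hs := hg.2 j rfl
        apply App.mono _ (N_succ_subset j _)
        rw [hdd]
        rcases hb0 (j + 1) (by omega) with h0 | ⟨h0, h0'⟩
        · rcases hb1 j (by omega) with h1 | ⟨h1, h1'⟩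
          · exact App.of_countable ((h0.image _).union (h1.image _))
          · rw [union_comm]
            exact (h1'.image p1_dist).union (h0.image _)
        · rcases hb1 j (by omega) with h1 | ⟨h1, h1'⟩
          · exact (h0'.image p0_dist).union (h1.image _)
          · omega
  intro n j c hc hjc
  exact countable_of_app (fun k => key k n j c hc hjc)

/-- All sets `N j (c + tl ω n)` are countable. -/
lemma cnt_all (ω : ℕ → Bool) (n j c : ℕ) : (N j ((c : ℝ) + tl ω n)).Countable := by
  have key : ∀ (k n j c : ℕ), App k (N j ((c : ℝ) + tl ω n)) := by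
    intro k
    induction k with
    | zero =>
      intro n j c
      refine ⟨∅, Icc 0 1, countable_empty, ?_, ?_⟩
      · rintro x ⟨hx0, hx1⟩ y ⟨hy0, hy1⟩
        rw [pow_zero, abs_le]
        constructor <;> linarith
      · intro x hx
        exact Or.inr hx.1
    | succ k ihk =>
      intro n j c
      rcases Nat.lt_or_ge j 4 with hj | hj
      · apply App.of_countable
        rcases Nat.lt_or_ge c (j + 1) with hc | hc
        · have h := low_mem _ (nd_lt ω n) j hj c hc
          obtain ⟨r, hr⟩ := Nat.exists_eq_succ_of_ne_zero h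
          exact cnt_tab ω r n j c (by omega) hr
        · rw [N_empty_hi]
          · exact countable_empty
          · have h1 : ((j + 1 : ℕ) : ℝ) ≤ c := by exact_mod_cast hc
            have h2 := two_thirds_le j
            have h3 := tl_ge ω n
            push_cast at h1
            linarith
      · obtain ⟨i, rfl⟩ : ∃ i, j = i + 1 := ⟨j - 1, by omega⟩
        apply App.mono _ (N_succ_subset i _)
        rw [dbl ω n c]
        set d := 2 * c + dig ω n with hd
        rcases Nat.lt_or_ge d (i + 2) with h | h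
        · rw [branch1_lo ω h, image_empty]
          exact (ihk _ _ _).image p0_dist |>.union countable_empty
        · have he : N (i + 1 + 1) ((d : ℝ) + tl ω (n + 1)) = ∅ := by
            apply N_empty_hi
            have h1 : ((i + 2 : ℕ) : ℝ) ≤ d := by exact_mod_cast h
            have h2 : (2 / 3 : ℝ) / 2 ^ (i + 1 + 1) ≤ (2 / 3) / 2 ^ 5 := by
              apply div_le_div_of_nonneg_left (by norm_num) (by positivity)
              exact pow_le_pow_right₀ (by norm_num) (by omega)
            have h3 := tl_ge ω (n + 1)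
            push_cast at h1 ⊢
            norm_num at h2
            linarith
          rw [he, image_empty, union_comm, branch1_eq ω h]
          exact (ihk _ _ _).image p1_dist |>.union countable_empty
  exact countable_of_app (fun k => key k n j c)

/-- All sets `N j ((a + tl ω 0) / 2 ^ m)`, `a` an integer, are countable. -/
lemma cnt_dy (ω : ℕ → Bool) : ∀ (m j : ℕ) (a : ℤ), (N j (((a : ℝ) + tl ω 0) / 2 ^ m)).Countable := by
  intro m
  induction m with
  | zero =>
    intro j a
    rw [pow_zero, div_one]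
    rcases le_or_gt 0 a with h | h
    · obtain ⟨c, rfl⟩ := Int.eq_ofNat_of_zero_le h
      have := cnt_all ω 0 j c
      exact_mod_cast this
    · rw [N_empty_lo]
      · exact countable_empty
      · have h1 : ((a + 1 : ℤ) : ℝ) ≤ ((0 : ℤ) : ℝ) := by exact_mod_cast h
        have h3 := tl_lt ω 0
        push_cast at h1
        linarith
  | succ m ih =>
    intro j a
    have e : 2 * (((a : ℝ) + tl ω 0) / 2 ^ (m + 1)) = ((a : ℝ) + tl ω 0) / 2 ^ m := by
      rw [pow_succ]
      field_simp
    rcases j with _ | j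
    · have hc := ih 1 a
      rw [← e] at hc
      exact (((hc.image p0).union ((hc.image p0).image _)).mono (N_zero_subset _))
    · have h0 := ih (j + 1 + 1) a
      have h1 := ih j (a - (j + 1 + 1) * 2 ^ m)
      rw [← e] at h0
      have e1 : 2 * (((a : ℝ) + tl ω 0) / 2 ^ (m + 1)) - (j + 1 + 1) =
          (((a - (j + 1 + 1) * 2 ^ m : ℤ) : ℝ) + tl ω 0) / 2 ^ m := by
        rw [e]
        push_cast
        field_simp
        ring
      rw [← e1] at h1
      exact ((h0.image p0).union (h1.image p1)).mono (N_succ_subset j _)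

end Pool.Agent.Y828.TK
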