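import Pool.Agent.Y828.TK.Count

/-!
# Infinitely many points, injectivity and density
-/

set_option autoImplicit false

namespace Pool.Agent.Y828.TK

open Set Pool.Agent.Results.MP_4a5b11_an.NonDyadicCountable

/-- Follow a word of digits inside a block. -/
def go : List Bool → ℕ → ℕ → ℕ → Option (ℕ × ℕ)
  | [], _, j, c => some (j, c)
  | false :: w, q, j, c => go w (q + 1) (j + 1) (2 * c + dg q)
  | true :: w, q, j, c =>
    if 1 ≤ j ∧ j + 1 ≤ 2 * c + dg q then go w (q + 1) (j - 1) (2 * c + dg q - (j + 1)) else none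

lemma go_spec (ω : ℕ → Bool) (w : List Bool) : ∀ (n j c j' c' : ℕ), n % 24 + w.length ≤ 24 →
    go w (nd ω n) j c = some (j', c') →
    ∀ x ∈ N j' ((c' : ℝ) + tl ω (n + w.length)), pt w x ∈ N j ((c : ℝ) + tl ω n) := by
  induction w with
  | nil =>
    intro n j c j' c' _ h x hx
    simp only [go, Option.some.injEq, Prod.mk.injEq] at h
    obtain ⟨rfl, rfl⟩ := h
    have e : pt [] x = x := rfl
    rw [e]
    simpa using hx
  | cons b w ih =>
    intro n j c j' c' hl h x hx
    rw [List.length_cons] at hl hx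
    have hstep : ∀ J C, go w (nd ω n + 1) J C = some (j', c') →
        go w (nd ω (n + 1)) J C = some (j', c') := by
      intro J C hJ
      rcases w with _ | ⟨b', w'⟩
      · cases b <;> simpa [go] using hJ
      · rw [nd_succ ω n (by rw [List.length_cons] at hl; omega)]
        exact hJ
    have hl' : (n + 1) % 24 + w.length ≤ 24 := by
      rcases Nat.lt_or_ge (n % 24) 23 with h1 | h1
      · omega
      · have h2 : (n + 1) % 24 = 0 := by omega
        omega
    rw [show n + (w.length + 1) = n + 1 + w.length by ring] at hx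
    cases b with
    | false =>
      have h1 := ih (n + 1) _ _ _ _ hl' (hstep _ _ h) x hx
      show pt w x / 2 ∈ _
      rw [mem_N_zero h1.1.1 h1.1.2, dbl ω n c]
      exact h1
    | true =>
      unfold go at h
      split_ifs at h with hc
      obtain ⟨j, rfl⟩ : ∃ i, j = i + 1 := ⟨j - 1, by omega⟩
      have h1 := ih (n + 1) _ _ _ _ hl' (hstep _ _ h) x hx
      show (1 + pt w x) / 2 ∈ _
      rw [mem_N_one h1.1.1 h1.1.2, dbl ω n c]
      rw [Nat.add_sub_cancel] at h1
      have hc2 : j + 2 ≤ 2 * c + dig ω n := hc.2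
      rw [branch1_eq ω hc2]
      exact h1

/-- The number with binary digits `w`. -/
def vl : List Bool → ℕ
  | [] => 0
  | false :: w => vl w
  | true :: w => 2 ^ w.length + vl w

lemma pt_eq (w : List Bool) (x : ℝ) : pt w x = (vl w + x) / 2 ^ w.length := by
  induction w with
  | nil => simp [pt, vl]
  | cons b w ih =>
    cases b with
    | false =>
      show pt w x / 2 = _
      rw [ih]
      simp only [vl, List.length_cons, pow_succ]
      field_simp
    | true =>
      show (1 + pt w x) / 2 = _
      rw [ih]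
      simp only [vl, List.length_cons, pow_succ]
      push_cast
      field_simp
      ring

/-- The words leading from the state `(2, 0)` to itself, for the two blocks. -/
def wd0 (b : Bool) : List Bool :=
  if b then
    [false, false, false, false, false, false, true, false, true, true, true, true,
      false, true, false, true, true, false, false, true, true, true, true, false]
  else
    [false, false, false, false, false, false, false, true, true, true, true, true,
      false, true, false, true, true, false, false, true, true, true, true, false]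

/-- The words leading from the state `(2, 0)` to `(2, 2)`, for the two blocks. -/
def wd1 (b : Bool) : List Bool :=
  if b then
    [false, false, false, false, false, false, true, false, true, true, true, true,
      false, true, false, true, true, false, false, true, true, true, false, true]
  else
    [false, false, false, false, false, false, false, true, true, true, true, true,
      false, true, false, true, true, false, false, true, true, true, false, true]

lemma wd_len (b : Bool) : (wd0 b).length = 24 ∧ (wd1 b).length = 24 := by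
  cases b <;> exact ⟨rfl, rfl⟩

lemma nd_block (ω : ℕ → Bool) (k : ℕ) : nd ω (24 * k) = if ω k then 24 else 0 := by
  unfold nd
  have h1 : 24 * k / 24 = k := by omega
  have h2 : 24 * k % 24 = 0 := by omega
  rw [h1, h2, add_zero]

lemma wd0_go (ω : ℕ → Bool) (k : ℕ) : go (wd0 (ω k)) (nd ω (24 * k)) 2 0 = some (2, 0) := by
  rw [nd_block]
  cases ω k <;> decide +kernel

lemma wd1_go (ω : ℕ → Bool) (k : ℕ) : go (wd1 (ω k)) (nd ω (24 * k)) 2 0 = some (2, 2) := by
  rw [nd_block]
  cases ω k <;> decide +kernel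

lemma vl_ne (b : Bool) : vl (wd0 b) ≠ vl (wd1 b) := by
  cases b <;> decide +kernel

lemma tl_block_le (ω : ℕ → Bool) (k : ℕ) : tl ω (24 * k) ≤ 1 / 8 := by
  have h0 : dig ω (24 * k) = 0 := by
    unfold dig
    rw [nd_block]
    cases ω k <;> decide +kernel
  have n1 : nd ω (24 * k + 1) = nd ω (24 * k) + 1 := nd_succ ω _ (by omega)
  have n2 : nd ω (24 * k + 1 + 1) = nd ω (24 * k + 1) + 1 := nd_succ ω _ (by omega)
  have h1 : dig ω (24 * k + 1) = 0 := by
    unfold dig
    rw [n1, nd_block]
    cases ω k <;> decide +kernel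
  have h2 : dig ω (24 * k + 1 + 1) = 0 := by
    unfold dig
    rw [n2, n1, nd_block]
    cases ω k <;> decide +kernel
  have r0 := tl_rec ω (24 * k)
  have r1 := tl_rec ω (24 * k + 1)
  have r2 := tl_rec ω (24 * k + 1 + 1)
  have r3 := tl_le_one ω (24 * k + 1 + 1 + 1)
  rw [h0] at r0
  rw [h1] at r1
  rw [h2] at r2
  push_cast at r0 r1 r2
  linarith

/-- `N 2 y` is not empty for `0 ≤ y ≤ 13/6`. -/
lemma N2_nonempty {y : ℝ} (h0 : 0 ≤ y) (h1 : y ≤ 13 / 6) : (N 2 y).Nonempty := by
  have t1 := T_half (x := 1 / 3) (by norm_num) (by norm_num)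
  rw [T_third] at t1
  have t2 := T_half (x := 1 / 3 / 2) (by norm_num) (by norm_num)
  rw [t1] at t2
  have t3 := T_one_sub (1 / 3 / 2 / 2)
  rw [t2] at t3
  have hc : Continuous (fun x : ℝ => T x + 2 * x) := T_cont.add (continuous_const.mul continuous_id)
  have h := intermediate_value_Icc (a := (0:ℝ)) (b := 1 - 1 / 3 / 2 / 2) (by norm_num)
    hc.continuousOn
  have h00 : T 0 = 0 := by exact_mod_cast T_int 0
  rw [h00, t3] at h
  obtain ⟨x, hx, hxy⟩ := h ⟨by norm_num; exact h0, by norm_num; linarith⟩
  refine ⟨x, ⟨hx.1, by linarith [hx.2]⟩, ?_⟩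
  push_cast
  exact hxy

/-- The sets at the state `(2, 0)` are infinite. -/
lemma N2_infinite (ω : ℕ → Bool) (k : ℕ) : (N 2 (((0 : ℕ) : ℝ) + tl ω (24 * k))).Infinite := by
  have key : ∀ (m k : ℕ), ∃ F : Finset ℝ, F.card = m ∧
      ∀ x ∈ F, x ∈ N 2 (((0 : ℕ) : ℝ) + tl ω (24 * k)) := by
    intro m
    induction m with
    | zero => intro k; exact ⟨∅, rfl, by simp⟩
    | succ m ih =>
      intro k
      obtain ⟨F, hF, hFN⟩ := ih (k + 1)
      obtain ⟨z, hz⟩ : (N 2 (((2 : ℕ) : ℝ) + tl ω (24 * (k + 1)))).Nonempty := by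
        apply N2_nonempty
        · have := tl_nonneg ω (24 * (k + 1))
          positivity
        · have := tl_block_le ω (k + 1)
          push_cast
          linarith
      have hlen := wd_len (ω k)
      have e24 : 24 * k + 24 = 24 * (k + 1) := by ring
      have g0 : ∀ x ∈ N 2 (((0 : ℕ) : ℝ) + tl ω (24 * (k + 1))),
          pt (wd0 (ω k)) x ∈ N 2 (((0 : ℕ) : ℝ) + tl ω (24 * k)) := by
        intro x hx
        refine go_spec ω _ (24 * k) 2 0 2 0 (by rw [hlen.1]; omega) (wd0_go ω k) x ?_
        rw [hlen.1, e24]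
        exact hx
      have g1 : pt (wd1 (ω k)) z ∈ N 2 (((0 : ℕ) : ℝ) + tl ω (24 * k)) := by
        refine go_spec ω _ (24 * k) 2 0 2 2 (by rw [hlen.2]; omega) (wd1_go ω k) z ?_
        rw [hlen.2, e24]
        exact hz
      have hnot : pt (wd1 (ω k)) z ∉ F.image (pt (wd0 (ω k))) := by
        intro hcon
        rw [Finset.mem_image] at hcon
        obtain ⟨x, hx, hxz⟩ := hcon
        have hxN := hFN x hx
        rw [pt_eq, pt_eq, hlen.1, hlen.2] at hxz
        have h1 : (vl (wd0 (ω k)) : ℝ) + x = vl (wd1 (ω k)) + z := by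
          field_simp at hxz
          linarith
        -- both `x` and `z` are in `[0, 1]`, `z > 0` and `x < 1`
        have hx1 : x < 1 := by
          rcases hxN.1.2.lt_or_eq with h | h
          · exact h
          · exfalso
            have h2 := hxN.2
            have hT1 : T 1 = 0 := by exact_mod_cast T_int 1
            rw [h, hT1] at h2
            have h3 := tl_lt ω (24 * (k + 1))
            push_cast at h2
            linarith
        have hx0 : 0 < x := by
          rcases hxN.1.1.lt_or_eq with h | h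
          · exact h
          · exfalso
            have h2 := hxN.2
            have hT0 : T 0 = 0 := by exact_mod_cast T_int 0
            rw [← h, hT0] at h2
            have h3 := tl_ge ω (24 * (k + 1))
            push_cast at h2
            linarith
        have hz0 := hz.1.1
        have hz1 := hz.1.2
        have h4 := vl_ne (ω k)
        rcases Nat.lt_or_gt_of_ne h4 with h5 | h5
        · have h6 : ((vl (wd0 (ω k)) + 1 : ℕ) : ℝ) ≤ vl (wd1 (ω k)) := by exact_mod_cast h5
          push_cast at h6
          linarith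
        · have h6 : ((vl (wd1 (ω k)) + 1 : ℕ) : ℝ) ≤ vl (wd0 (ω k)) := by exact_mod_cast h5
          push_cast at h6
          linarith
      refine ⟨insert (pt (wd1 (ω k)) z) (F.image (pt (wd0 (ω k)))), ?_, ?_⟩
      · rw [Finset.card_insert_of_notMem hnot, Finset.card_image_of_injective _ (pt_inj _), hF]
      · intro x hx
        rw [Finset.mem_insert, Finset.mem_image] at hx
        rcases hx with rfl | ⟨y, hy, rfl⟩
        · exact g1
        · exact g0 y (hFN y hy)
  intro hfin
  obtain ⟨F, hF, hFN⟩ := key (hfin.toFinset.card + 1) k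
  have h1 : F ⊆ hfin.toFinset := by
    intro x hx
    rw [Set.Finite.mem_toFinset]
    exact hFN x hx
  have := Finset.card_le_card h1
  omega

/-! ### The tails are pairwise different and not dyadic -/

/-- The value of the block. -/
def bv (b : Bool) : ℕ := if b then 1696030 else 1171742

/-- The first digits of a block, as a number. -/
def pv (b : Bool) : ℕ → ℕ
  | 0 => 0
  | i + 1 => 2 * pv b i + dg ((if b then 24 else 0) + i)

lemma pv_24 (b : Bool) : pv b 24 = bv b := by
  cases b <;> decide +kernel

lemma tl_block (ω : ℕ → Bool) (k : ℕ) :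
    (2:ℝ) ^ 24 * tl ω (24 * k) = bv (ω k) + tl ω (24 * (k + 1)) := by
  have hn : ∀ i, i < 24 → nd ω (24 * k + i) = (if ω k then 24 else 0) + i := by
    intro i
    induction i with
    | zero => intro _; exact nd_block ω k
    | succ i ih =>
      intro hi
      rw [← Nat.add_assoc, nd_succ ω _ (by omega), ih (by omega)]
      ring
  have hd : ∀ i, i < 24 → dig ω (24 * k + i) = dg ((if ω k then 24 else 0) + i) := by
    intro i hi
    unfold dig
    rw [hn i hi]
  have h : ∀ i, i ≤ 24 → (2:ℝ) ^ i * tl ω (24 * k) = (pv (ω k) i : ℝ) + tl ω (24 * k + i) := by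
    intro i
    induction i with
    | zero =>
      intro _
      simp [pv]
    | succ i ih =>
      intro hi
      have h1 := ih (by omega)
      have h2 := tl_rec ω (24 * k + i)
      rw [hd i (by omega)] at h2
      rw [pow_succ, ← Nat.add_assoc]
      have h3 : (pv (ω k) (i + 1) : ℝ) = 2 * pv (ω k) i + dg ((if ω k then 24 else 0) + i) := by
        show ((2 * pv (ω k) i + dg ((if ω k then 24 else 0) + i) : ℕ) : ℝ) = _
        push_cast
        ring
      rw [h3]
      linarith
  have h24 := h 24 le_rfl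
  rw [pv_24, show 24 * k + 24 = 24 * (k + 1) by ring] at h24
  exact h24

lemma tl_injective : Function.Injective (fun ω : ℕ → Bool => tl ω 0) := by
  intro ω ω' h
  have h : tl ω (24 * 0) = tl ω' (24 * 0) := h
  have key : ∀ k, tl ω (24 * k) = tl ω' (24 * k) ∧ (∀ i < k, ω i = ω' i) := by
    intro k
    induction k with
    | zero => exact ⟨h, by intro i hi; omega⟩
    | succ k ih =>
      obtain ⟨h1, h2⟩ := ih
      have b1 := tl_block ω k
      have b2 := tl_block ω' k
      have l1 := tl_ge ω (24 * (k + 1))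
      have l2 := tl_ge ω' (24 * (k + 1))
      have u1 := tl_lt ω (24 * (k + 1))
      have u2 := tl_lt ω' (24 * (k + 1))
      have hb : ω k = ω' k := by
        rw [h1, b2] at b1
        cases hk : ω k <;> cases hk' : ω' k
        · rfl
        · exfalso
          rw [hk, hk'] at b1
          simp only [bv] at b1
          norm_num at b1
          linarith
        · exfalso
          rw [hk, hk'] at b1
          simp only [bv] at b1
          norm_num at b1
          linarith
        · rfl
      refine ⟨?_, ?_⟩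
      · rw [h1, b2, hb] at b1
        linarith
      · intro i hi
        rcases Nat.lt_or_eq_of_le (Nat.lt_succ_iff.1 hi) with h3 | h3
        · exact h2 i h3
        · rw [h3, hb]
  funext i
  exact (key (i + 1)).2 i (Nat.lt_succ_self i)

lemma tl_pow (ω : ℕ → Bool) (p : ℕ) : ∃ K : ℕ, 2 ^ p * tl ω 0 = (K : ℝ) + tl ω p := by
  induction p with
  | zero => exact ⟨0, by simp⟩
  | succ p ih =>
    obtain ⟨K, hK⟩ := ih
    refine ⟨2 * K + dig ω p, ?_⟩
    have := tl_rec ω p
    rw [pow_succ]
    push_cast
    linarith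

/-- `(a + tl ω 0) / 2 ^ m` is not a dyadic rational. -/
lemma not_dy (ω : ℕ → Bool) (a b : ℤ) (m p : ℕ) : ((a : ℝ) + tl ω 0) / 2 ^ m ≠ (b : ℝ) / 2 ^ p := by
  intro h
  obtain ⟨K, hK⟩ := tl_pow ω p
  have hm : (0:ℝ) < 2 ^ m := by positivity
  have hp : (0:ℝ) < 2 ^ p := by positivity
  rw [div_eq_div_iff hm.ne' hp.ne'] at h
  have h1 : tl ω p = ((b * 2 ^ m - a * 2 ^ p - K : ℤ) : ℝ) := by
    push_cast
    linarith
  have h2 := tl_ge ω p
  have h3 := tl_lt ω p
  rw [h1] at h2 h3
  have h4 : (0 : ℤ) < b * 2 ^ m - a * 2 ^ p - K := by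
    have : ((0 : ℤ) : ℝ) < ((b * 2 ^ m - a * 2 ^ p - K : ℤ) : ℝ) := by push_cast at h2 ⊢; linarith
    exact_mod_cast this
  have h5 : b * 2 ^ m - a * 2 ^ p - K < (1 : ℤ) := by
    have : ((b * 2 ^ m - a * 2 ^ p - K : ℤ) : ℝ) < ((1 : ℤ) : ℝ) := by push_cast at h3 ⊢; linarith
    exact_mod_cast this
  omega

/-! ### Density -/

/-- Number of zeros minus number of ones. -/
def ex : List Bool → ℤ
  | [] => 0
  | false :: w => ex w + 1
  | true :: w => ex w - 1

lemma pt_mem {w : List Bool} {z : ℝ} (h0 : 0 ≤ z) (h1 : z ≤ 1) : 0 ≤ pt w z ∧ pt w z ≤ 1 := by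
  induction w with
  | nil => exact ⟨h0, h1⟩
  | cons b w ih =>
    cases b with
    | false =>
      show 0 ≤ pt w z / 2 ∧ pt w z / 2 ≤ 1
      constructor <;> linarith [ih.1, ih.2]
    | true =>
      show 0 ≤ (1 + pt w z) / 2 ∧ (1 + pt w z) / 2 ≤ 1
      constructor <;> linarith [ih.1, ih.2]

lemma T_pt (w : List Bool) : ∃ K : ℤ, ∀ z : ℝ, 0 ≤ z → z ≤ 1 →
    T (pt w z) = (K + ex w * z + T z) / 2 ^ w.length := by
  induction w with
  | nil => exact ⟨0, fun z _ _ => by simp [pt, ex]⟩
  | cons b w ih =>
    obtain ⟨K, hK⟩ := ih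
    cases b with
    | false =>
      refine ⟨K + vl w, fun z h0 h1 => ?_⟩
      have hm := pt_mem (w := w) h0 h1
      show T (pt w z / 2) = _
      rw [T_half hm.1 hm.2, hK z h0 h1, pt_eq]
      simp only [ex, List.length_cons, pow_succ]
      push_cast
      field_simp
      ring
    | true =>
      refine ⟨K + 2 ^ w.length - vl w, fun z h0 h1 => ?_⟩
      have hm := pt_mem (w := w) h0 h1
      show T ((1 + pt w z) / 2) = _
      rw [T_half' hm.1 hm.2, hK z h0 h1, pt_eq]
      simp only [ex, List.length_cons, pow_succ]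
      push_cast
      field_simp
      ring

lemma pt_append (w w' : List Bool) (z : ℝ) : pt (w ++ w') z = pt w (pt w' z) := by
  induction w with
  | nil => rfl
  | cons b w ih =>
    cases b with
    | false =>
      show pt (w ++ w') z / 2 = pt w (pt w' z) / 2
      rw [ih]
    | true =>
      show (1 + pt (w ++ w') z) / 2 = (1 + pt w (pt w' z)) / 2
      rw [ih]

lemma ex_append (w w' : List Bool) : ex (w ++ w') = ex w + ex w' := by
  induction w with
  | nil => simp [ex]
  | cons b w ih =>
    cases b with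
    | false =>
      show ex (w ++ w') + 1 = ex w + 1 + ex w'
      rw [ih]
      ring
    | true =>
      show ex (w ++ w') - 1 = ex w - 1 + ex w'
      rw [ih]
      ring

lemma ex_rep (n : ℕ) : ex (List.replicate n false) = n ∧ ex (List.replicate n true) = -(n : ℤ) := by
  induction n with
  | zero => exact ⟨rfl, rfl⟩
  | succ n ih =>
    rw [List.replicate_succ, List.replicate_succ]
    refine ⟨?_, ?_⟩
    · show ex (List.replicate n false) + 1 = _
      rw [ih.1]
      push_cast
      ring
    · show ex (List.replicate n true) - 1 = _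
      rw [ih.2]
      push_cast
      ring

lemma exists_word : ∀ (M : ℕ) (x : ℝ), 0 ≤ x → x ≤ 1 →
    ∃ (w : List Bool) (z : ℝ), w.length = M ∧ 0 ≤ z ∧ z ≤ 1 ∧ pt w z = x := by
  intro M
  induction M with
  | zero => intro x h0 h1; exact ⟨[], x, rfl, h0, h1, rfl⟩
  | succ M ih =>
    intro x h0 h1
    rcases le_total x (1 / 2) with h | h
    · obtain ⟨w, z, hw, hz0, hz1, hz⟩ := ih (2 * x) (by linarith) (by linarith)
      refine ⟨false :: w, z, by simp [hw], hz0, hz1, ?_⟩
      show pt w z / 2 = x
      rw [hz]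
      ring
    · obtain ⟨w, z, hw, hz0, hz1, hz⟩ := ih (2 * x - 1) (by linarith) (by linarith)
      refine ⟨true :: w, z, by simp [hw], hz0, hz1, ?_⟩
      show (1 + pt w z) / 2 = x
      rw [hz]
      ring

/-- Every nonempty open interval inside `[0, 2/3]` contains `(K + tl ω 0) / 2 ^ m` for all `ω`, with
fixed `K` and `m`, and the level set of this ordinate is infinite. -/
lemma exists_K (a b : ℝ) (ha : 0 ≤ a) (hab : a < b) (hb : b ≤ 2 / 3) :
    ∃ (K : ℤ) (m : ℕ), ∀ ω : ℕ → Bool, a < ((K : ℝ) + tl ω 0) / 2 ^ m ∧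
      ((K : ℝ) + tl ω 0) / 2 ^ m < b ∧ (N 0 (((K : ℝ) + tl ω 0) / 2 ^ m)).Infinite := by
  obtain ⟨x0, hx0, hTx0⟩ := T_surj (y := (a + b) / 2) (by linarith) (by linarith)
  have hcont := T_cont.continuousAt (x := x0)
  rw [Metric.continuousAt_iff] at hcont
  obtain ⟨δ, hδ, hcont⟩ := hcont ((b - a) / 2) (by linarith)
  obtain ⟨M, hM⟩ := exists_pow_lt_of_lt_one hδ (show (1 / 2 : ℝ) < 1 by norm_num)
  obtain ⟨w, z0, hwl, hz00, hz01, hz0⟩ := exists_word M x0 hx0.1 hx0.2
  obtain ⟨w', hw'⟩ : ∃ w' : List Bool, ex (w ++ w') = 2 := by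
    rcases le_total (ex w) 2 with h | h
    · refine ⟨List.replicate (2 - ex w).toNat false, ?_⟩
      rw [ex_append, (ex_rep _).1]
      omega
    · refine ⟨List.replicate (ex w - 2).toNat true, ?_⟩
      rw [ex_append, (ex_rep _).2]
      omega
  obtain ⟨K, hK⟩ := T_pt (w ++ w')
  refine ⟨K, (w ++ w').length, fun ω => ?_⟩
  have hinf := N2_infinite ω 0
  have hval : ∀ z ∈ N 2 (((0 : ℕ) : ℝ) + tl ω (24 * 0)),
      T (pt (w ++ w') z) = ((K : ℝ) + tl ω 0) / 2 ^ (w ++ w').length := by
    intro z hz
    rw [hK z hz.1.1 hz.1.2, hw']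
    have h2 := hz.2
    push_cast at h2 ⊢
    rw [zero_add] at h2
    congr 1
    linarith
  have hnear : ∀ z ∈ N 2 (((0 : ℕ) : ℝ) + tl ω (24 * 0)),
      |T (pt (w ++ w') z) - (a + b) / 2| < (b - a) / 2 := by
    intro z hz
    rw [← hTx0, ← Real.dist_eq]
    apply hcont
    rw [Real.dist_eq, ← hz0, pt_append, pt_eq w, pt_eq w]
    have hm := pt_mem (w := w') hz.1.1 hz.1.2
    have e : ((vl w : ℝ) + pt w' z) / 2 ^ w.length - (vl w + z0) / 2 ^ w.length =
        (pt w' z - z0) * (1 / 2) ^ M := by
      rw [hwl, one_div_pow]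
      field_simp
      ring
    rw [e, abs_mul, abs_of_pos (show (0:ℝ) < (1 / 2) ^ M by positivity)]
    have h3 : |pt w' z - z0| ≤ 1 := by
      rw [abs_le]
      constructor <;> linarith [hm.1, hm.2]
    have h4 : (0:ℝ) < (1 / 2) ^ M := by positivity
    nlinarith
  obtain ⟨z, hz⟩ := hinf.nonempty
  have h5 := hnear z hz
  rw [hval z hz, abs_lt] at h5
  refine ⟨by linarith [h5.1], by linarith [h5.2], ?_⟩
  apply (hinf.image (pt_inj (w ++ w')).injOn).mono
  rintro _ ⟨z, hz, rfl⟩
  have hm := pt_mem (w := w ++ w') hz.1.1 hz.1.2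
  refine ⟨⟨hm.1, hm.2⟩, ?_⟩
  rw [hval z hz]
  simp

end Pool.Agent.Y828.TK
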